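import Pool.Agent.Lib.helper3.PAlg

/-- A Banach *-algebra with isometric involution, `A = A² = A³`, and a discontinuous positive
functional. -/
theorem Pool.Agent.Results.MP_10b086_an.Example.result :
    ∃ (A : Type) (_ : NonUnitalNormedRing A) (_ : NormedSpace ℂ A)
      (_ : IsScalarTower ℂ A A) (_ : SMulCommClass ℂ A A) (_ : CompleteSpace A) (_ : StarRing A)
      (_ : StarModule ℂ A),
      (∀ a : A, ‖star a‖ = ‖a‖) ∧
      Submodule.span ℂ {y | ∃ a b : A, y = a * b} = ⊤ ∧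
      Submodule.span ℂ {y | ∃ a b c : A, y = a * b * c} = ⊤ ∧
      ∃ f : A →ₗ[ℂ] ℂ, (∀ a : A, 0 ≤ (f (star a * a)).re ∧ (f (star a * a)).im = 0) ∧
        ¬ Continuous f :=
  Pool.Agent.Lib.helper3.PS.main
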